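import Pool.Agent.MP_a4a5b6_lc.H97.Catch

open MeasureTheory

namespace Pool.Agent.Results.MP_a4a5b6_lc.NoDecomposition

/-- Haar null in the sense of Christensen, two-sided version: `A` lies in a Borel set `B` all of
whose two-sided translates `g B h` are null for one Borel probability measure. -/
def HaarNull {G : Type} [Group G] [TopologicalSpace G] (A : Set G) : Prop :=
  ∃ B : Set G, @MeasurableSet G (borel G) B ∧ A ⊆ B ∧
    ∃ μ : @Measure G (borel G), μ Set.univ = 1 ∧ ∀ g h : G, μ {x | ∃ b ∈ B, x = g * b * h} = 0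

/-- There is an uncountable Polish group in which no meager set has a Haar null complement. -/
theorem result : ∃ (G : Type) (_ : Group G) (_ : TopologicalSpace G),
    IsTopologicalGroup G ∧ PolishSpace G ∧ Uncountable G ∧
      ∀ M : Set G, IsMeagre M → ¬ HaarNull Mᶜ := by
  refine ⟨Pool.Agent.MP_a4a5b6_lc.H97.G, inferInstance, inferInstance, inferInstance,
    inferInstance, Pool.Agent.MP_a4a5b6_lc.H97.uncountable_G, ?_⟩
  letI : MeasurableSpace Pool.Agent.MP_a4a5b6_lc.H97.G := borel _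
  haveI : BorelSpace Pool.Agent.MP_a4a5b6_lc.H97.G := ⟨rfl⟩
  rintro M hM ⟨B, -, hB, μ, hμ, h0⟩
  haveI : IsProbabilityMeasure μ := ⟨hμ⟩
  obtain ⟨K, -, hK, hKμ⟩ := MeasurableSet.exists_lt_isCompact (μ := μ) MeasurableSet.univ
    (r := 0) (by simp)
  obtain ⟨g, h, hgh⟩ := Pool.Agent.MP_a4a5b6_lc.H97.residual_catch hM hK
  refine hKμ.ne' (measure_mono_null (fun k hk => ?_) (h0 g⁻¹ h))
  exact ⟨g * k * h⁻¹, hB (hgh k hk), by simp [mul_assoc]⟩

end Pool.Agent.Results.MP_a4a5b6_lc.NoDecomposition
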